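import Pool.Agent.RMS.AllN

/-!
# The Boolean hierarchy over nondeterminism is proper for linear time and one unlimited work tape

For every `m ≥ 1` one explicit function `FB` of `N = sizeB M` bits (with at most `m` blocks). It is
`(C 0 \ C 1) ∪ (C 2 \ C 3) ∪ …` for `m` nested properties, each with a nondeterministic OBDD of at most
`N ^ 24` nodes, and it is decided by a deterministic oblivious program of polynomial length and width.
But for all `k`, with `c = 2 ^ (- ((k + 1) (m + 1)) ^ B)`, it is no Boolean function of fewer than `m`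
answers, and no Boolean function `De` of `m` answers with `De (∅)` true, of nondeterministic machines with
random access to the input, fewer than `2 ^ (c N)` nodes (program, advice and memory) and one unlimited work
tape, or one unlimited stack, such that each accepted input has an accepting run of cost at most `k N`. For
`m = 1`: `¬ FB` has no such machine, but `FB` has a nondeterministic OBDD.
-/

set_option autoImplicit false

namespace Pool.Agent.Results.MP_a77cad_lc.BooleanHierarchyProper

open Pool.Agent.TKB (BasB LayB sizeB mbL FB)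
open Pool.Agent.RMS (LevelU)
open Pool.Agent.HPM (DecOs)
open Pool.Agent.STK (Prog)

/-- **Theorem.** The properties in `EasyU d N s T z` are those decided by a nondeterministic program with one
unlimited stack or by a fork program (AND/OR circuit) with fewer than `2 ^ z` nodes, or by a
nondeterministic program with one unlimited tape of dimension `d` with fewer than `2 ^ y` nodes,
`y ^ d ≤ z`, and at most `2 ^ g` letters, `1 ≤ g ≤ z`; there are at most `s` tests on each edge, and each
accepted input has an accepting run (tree) with cost at most `T`: the number of the tests of variables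
outside a set of at most `s` variables, plus `g` for each move of the head.
(1) For `m ≥ 1` and `M ≥ 2 ^ 56` the number `N = sizeB M` of the bits is between `2 M`
and `3 M`, there are bases `β` and layouts `ly`, and for all of them there are nested properties
`C 0 ⊇ C 1 ⊇ … ⊇ C m = ∅`, each of which is accepted by a nondeterministic branching program with at most
`N ^ 24` nodes without stack that reads one bit on each edge and on each run from the source to the sink
reads the variables in increasing order, each at most once (a nondeterministic OBDD), and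
`FB β ly = ⋃ (i even) C i \ C (i + 1)`; moreover `FB β ly` is decided by a deterministic oblivious program
of length and width at most `N ^ 24` (`DecOs` with one test in each step).
(2) There is a constant `B` such that for all `m, k ≥ 1` and `M ≥ 2 ^ (((k + 1) (m + 1)) ^ B)`, with
`c = 1 / 2 ^ (((k + 1) (m + 1)) ^ B)`, for all bases and layouts and `s ≤ c N`: whenever `FB β ly` is
`De (A 1, …, A q)` for `q ≤ m` properties in `EasyU 1 N s (k N) (c N)` (one unlimited tape of dimension `1`,
or one stack, or circuits), then `q = m` and `De (∅)` is false (`LevelU`). So `FB β ly` is in no lower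
level of the Boolean hierarchy, and its complement is not in the level `m`.
(2') There is a constant `a > 0` such that for all `d ≥ 1` and `ε > 0`, all large `M`,
`1 ≤ m ≤ (log N) ^ a` and `s ≤ N ^ (1 - ε)` the same is true for `EasyU d N s T (N ^ (1 - ε))` with
`T ≤ N (log N) ^ a` (tapes of dimension `d`). -/
theorem result :
    (∀ m M : ℕ, 1 ≤ m → 2 ^ 56 ≤ M → (2 * M ≤ sizeB M ∧ sizeB M ≤ 3 * M) ∧
      Nonempty (BasB (mbL m) M) ∧ Nonempty (LayB (mbL m) M) ∧
      ∀ (β : BasB (mbL m) M) (ly : LayB (mbL m) M),
      (∃ C : ℕ → (Fin (sizeB M) → Bool) → Prop,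
        (∀ i, ∃ (Q : Type) (_ : Fintype Q) (G : Prog (Fin (sizeB M)) 0 Empty Q), G.Blocks 1 ∧
          (∀ l, G.Full l → (l.map Prod.fst).Pairwise (· < ·)) ∧ (∀ v, G.Accepts v ↔ C i v) ∧
          Fintype.card Q ≤ sizeB M ^ 24) ∧
        (∀ i v, C (i + 1) v → C i v) ∧ (∀ v, ¬ C m v) ∧
        ∀ v, FB β ly v ↔ ∃ i, i < m ∧ Even i ∧ C i v ∧ ¬ C (i + 1) v) ∧
      ∃ (V : Type) (_ : Fintype V) (T : ℕ) (σ : Fin T → Fin 1 → Fin (sizeB M)),
        Fintype.card V ≤ sizeB M ^ 24 ∧ T ≤ sizeB M ^ 24 ∧
        DecOs 1 (Fin (sizeB M)) V T σ (FB β ly)) ∧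
    (∃ B : ℕ, ∀ m k M : ℕ, 1 ≤ m → 1 ≤ k → 2 ^ (((k + 1) * (m + 1)) ^ B) ≤ M →
      ∀ (β : BasB (mbL m) M) (ly : LayB (mbL m) M) (N s : ℕ) (c : ℝ), N = sizeB M →
      c = 1 / 2 ^ (((k + 1) * (m + 1)) ^ B) → (s : ℝ) ≤ c * N →
        LevelU 1 m (sizeB M) s (k * N) (c * N) (FB β ly)) ∧
    ∃ a : ℝ, 0 < a ∧ ∀ (d : ℕ) (ε : ℝ), 1 ≤ d → 0 < ε → ∃ M0 : ℕ, ∀ M ≥ M0, ∀ m : ℕ, 1 ≤ m →
      ∀ (β : BasB (mbL m) M) (ly : LayB (mbL m) M) (N s T : ℕ), N = sizeB M →
      (m : ℝ) ≤ Real.log N ^ a → (s : ℝ) ≤ (N : ℝ) ^ (1 - ε) →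
        (T : ℝ) ≤ N * Real.log N ^ a → LevelU d m (sizeB M) s T ((N : ℝ) ^ (1 - ε)) (FB β ly) := by
  refine ⟨fun m M hm hM => Pool.Agent.TKB.mainH m M hm hM, ?_, ?_⟩
  · obtain ⟨B, h⟩ := Pool.Agent.RMS.lv1
    refine ⟨B, ?_⟩
    rintro m k M hm hk hM β ly N s c rfl rfl hs
    exact h m k M hm hk hM β ly s hs
  · obtain ⟨a, ha, h⟩ := Pool.Agent.RMS.lv2
    refine ⟨a, ha, fun d ε hd hε => ?_⟩
    obtain ⟨M0, h⟩ := h d ε hd hε
    refine ⟨M0, ?_⟩
    rintro M hM m hm β ly N s T rfl hq hs hT
    exact h M hM m hm hq β ly s T hs hT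

end Pool.Agent.Results.MP_a77cad_lc.BooleanHierarchyProper
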