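import Pool.Agent.DAQ.Main2

/-!
# DAG-like lifting for OBDDs in several orders, oblivious branching programs and linear inequalities

Each CNF `G` has a lifted formula `lift G`. The size of the smallest DAG-like refutations of `lift G`,
for lines which are linear inequalities with any coefficients (semantic cutting planes), OBDDs in
several orders, or oblivious branching programs with a linear inequality at the end, is determined by
the smallest width `W` of a resolution refutation of `G`: it is `N ^ Θ(W)` for a bounded number of
orders, and still `2 ^ Ω(W)` for `ε log N` orders (`W` large).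
-/

set_option autoImplicit false

namespace Pool.Agent.Results.MP_a77cad_lc.DagLikeLifting

open Pool.Agent.OB Pool.Agent.DAQ

/-- **Theorem.** There are `c, ε > 0` and `K` such that for each unsatisfiable CNF `G` with `n ≥ 2`
variables and clauses of width at most `b ≥ 2` the formula `lift G` with `N` variables is
unsatisfiable, `n ≤ N ≤ n ^ K`, it has at most `(|G| + 1) * N ^ (K b)` clauses, each with at most
`K b log N` literals and no tautology, and:

* if `G` has a resolution refutation of width `W`, then `lift G` has a refutation with at most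
  `N ^ (K (W + 1))` lines which are linear inequalities (with `κ = 2`);
* if `G` has no resolution refutation of width `W`, and `κ ≥ 1`, then each refutation of `lift G` with
  `L` lines, each implied by at most `κ` clauses and at most `κ` earlier lines, satisfies the
  following. (a) If all lines are computed by oblivious branching programs of width `w` which read the
  same sequence of `T ≤ ε N log N` variables and then test a linear inequality depending on the last
  state, then `max w L + 1 ≥ N ^ ((W - K b κ) / (K κ ^ 2 (1 + T / N)))`. (b) If all lines are linear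
  inequalities or have OBDDs with at most `s` nodes for one of `l ≤ ε log N` orders, then
  `max s L + 1 ≥ N ^ ((W - K b κ) / (K κ ^ 2 (1 + l)))`.

For the pigeonhole principle `G = php m`, `m ≥ K` (`N` is at most `m ^ K` and `lift G` has at most
`N ^ K` clauses), and `κ ≤ N ^ c` the sizes in (a), (b) are at least `2 ^ (N ^ c)`. (The lower bounds
(a) and (b) are the definition `Hard`.) -/
theorem result : ∃ (c ε : ℝ) (K : ℕ), 0 < c ∧ 0 < ε ∧
    (∀ (I : Type) [Fintype I] [DecidableEq I] (G : CNF I) (n N b : ℕ), n = Fintype.card I →
      N = Fintype.card (LV I) → 2 ≤ n → 2 ≤ b → Unsat G → (∀ C ∈ G, C.card ≤ b) →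
      (n ≤ N ∧ N ≤ n ^ K ∧ Unsat (lift G) ∧ (lift G).card ≤ (G.card + 1) * N ^ (K * b) ∧
        ∀ C ∈ lift G, C.card ≤ K * b * Nat.log 2 N ∧ ¬ Taut C) ∧
      (∀ W : ℕ, Refutable G W → ∃ L ≤ N ^ (K * (W + 1)), Ref (lift G) 2 Ineq L) ∧
      ∀ W κ : ℕ, ¬ Refutable G W → 1 ≤ κ →
        Hard G κ ε fun x => (N : ℝ) ^ ((W - K * b * κ) / (K * κ ^ 2 * (1 + x)) : ℝ) - 1) ∧
    ∀ m ≥ K, ∀ N : ℕ, N = Fintype.card (LV (Fin (m + 1) × (Fin m ⊕ Fin (m + 1)))) →
      m ≤ N ∧ N ≤ m ^ K ∧ Unsat (lift (php m)) ∧ (lift (php m)).card ≤ N ^ K ∧
      ∀ κ : ℕ, (κ : ℝ) ≤ (N : ℝ) ^ c → Hard (php m) κ ε fun _ => (2 : ℝ) ^ ((N : ℝ) ^ c) :=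
  main2

end Pool.Agent.Results.MP_a77cad_lc.DagLikeLifting
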