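import Mathlib
import Pool.Agent.SRN.Final

/-!
# Exponential lower bound for substitution redundancy proofs with new variables

`DerivesN F m r L Γ δ U` (in `Pool/Agent/SRN/Defs.lean`) is the proof system SR with new variables
and with deletion.  New variables of the first kind (`Y`) are defined when they are introduced, as in
extended resolution; their number is not bounded, and they may be deleted and used again, but at any
time the definitions which are present contain at most `m` variables of the CNF `F`.  New variables
of the second kind (`Z`) have no definition.  In the tests of redundancy any sound reasoning from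
`r` clauses may be used instead of unit propagation.

For every `ε > 0` and all large `N` there is an unsatisfiable `k`-CNF with `N` variables and at most
`K * N * log N` clauses whose refutations in this system all have at least `2 ^ t` learned clauses, if
`m ≤ N ^ (1 - ε)` and `(2 ^ |Z| + r) * t ≤ N ^ (1 - ε)`.  Without new variables and with `r = 0` this
is the bound `2 ^ (N ^ (1 - ε))` for SR without new variables.
-/

theorem Pool.Agent.Results.MP_a77cad_lc.SRWithNewVariables.result :
    ∀ ε : ℝ, 0 < ε → ∃ k K N₀ : ℕ, ∀ N : ℕ, N₀ ≤ N →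
      ∃ F : Pool.Agent.SR.CNF (Fin N), Pool.Agent.SR.Unsat F ∧
        (∀ C ∈ F, C.card ≤ k ∧ ∀ l ∈ C, Pool.Agent.SR.neg l ∉ C) ∧
        (F.card : ℝ) ≤ K * (N * Real.log N) ∧
        ∀ (Y Z : Type) [DecidableEq Y] [Fintype Z] [DecidableEq Z] (m r t : ℕ), 1 ≤ t →
          (m : ℝ) ≤ (N : ℝ) ^ (1 - ε) →
          (((2 ^ Fintype.card Z + r) * t : ℕ) : ℝ) ≤ (N : ℝ) ^ (1 - ε) →
          ∀ (L : List (Pool.Agent.SR.Clause (Fin N ⊕ (Y ⊕ Z))))
            (Γ : Pool.Agent.SR.CNF (Fin N ⊕ (Y ⊕ Z)))
            (δ : Y → Pool.Agent.SR.CNF (Fin N ⊕ (Y ⊕ Z))) (U : Finset Y),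
            Pool.Agent.SRN.DerivesN F m r L Γ δ U → ∅ ∈ Γ → 2 ^ t ≤ L.length :=
  Pool.Agent.SRN.lower_bound
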